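import Pool.Graph.R_seed8.Results.MP_f18a8d_nt.NotRegular

/-!
# The sign pattern of the perturbed Hofstadter sequence is not regular in any base

The signs at the odd indices are completely determined: with `u_r = 2 a_r - r - 2`,
`v_r = 4 a_r - r - 2`, `a_r = (2·4^(r+1) + 1)/3` the difference `Q (2m) - Q (2m-1)` is positive for
`u_r < m < v_r`, negative for `v_r < m < u_(r+1)` and zero for `m = u_r, v_r`. If the sign sequence
were eventually `k`-regular, two kernel sequences `t (k^e x + 1)` and `t (k^e' x + 1)`, `e < e'`,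
would coincide; comparing the sign changes near `v_r` for one large `r` gives an exponential
equation that has no solution.
-/

set_option autoImplicit false

namespace Pool.Agent.Results.MP_f18a8d_nt.AnyBase

open Pool.Agent.Results.MP_f18a8d_nt.NotRegular

/-- The numbers `u_r = 2 a_r - r - 2`, where `a_r = (2·4^(r+1) + 1)/3`. -/
def u (r : ℕ) : ℤ := 2 * ((2 * 4 ^ (r + 1) + 1) / 3) - r - 2

/-- The numbers `v_r = 4 a_r - r - 2`, where `a_r = (2·4^(r+1) + 1)/3`. -/
def v (r : ℕ) : ℤ := 4 * ((2 * 4 ^ (r + 1) + 1) / 3) - r - 2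

/-- A sequence `s` is eventually `k`-regular if it agrees with a `k`-regular integer sequence for
all sufficiently large `n`. -/
def EventuallyRegular (k : ℕ) (s : ℕ → ℤ) : Prop :=
  ∃ t : ℕ → ℤ, IsRegular k t ∧ ∃ N : ℕ, ∀ n ≥ N, s n = t n

lemma aa3 (r : ℕ) : 3 * aa r = 8 * 4 ^ r + 1 := by
  induction r with
  | zero => simp [aa]
  | succ r ih =>
    simp only [aa]
    rw [pow_succ]
    omega

lemma aa_eq (r : ℕ) : (2 * 4 ^ (r + 1) + 1) / 3 = aa r := by
  have h := aa3 r
  have h1 : (2 : ℤ) * 4 ^ (r + 1) + 1 = 3 * aa r := by rw [h, pow_succ]; ring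
  rw [h1]
  omega

lemma u_eq (r : ℕ) : u r = 2 * aa r - (r + 2) := by unfold u; rw [aa_eq]; ring

lemma v_eq (r : ℕ) : v r = 4 * aa r - (r + 2) := by unfold v; rw [aa_eq]; ring

lemma u_succ (r : ℕ) : u (r + 1) = 8 * aa r - (r + 2) - 3 := by
  rw [u_eq]
  simp only [aa]
  push_cast
  ring

lemma u_lt_v (r : ℕ) : u r < v r := by
  have := aa_ge r
  rw [u_eq, v_eq]
  omega

lemma v_lt_u (r : ℕ) : v r < u (r + 1) := by
  have := aa_ge r
  rw [u_succ, v_eq]
  omega

lemma u_mono {r s : ℕ} (h : r ≤ s) : u r ≤ u s := by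
  induction s, h using Nat.le_induction with
  | base => exact le_rfl
  | succ s _ ih => exact ih.trans ((u_lt_v s).trans (v_lt_u s)).le

lemma v_mono {r s : ℕ} (h : r ≤ s) : v r ≤ v s := by
  induction s, h using Nat.le_induction with
  | base => exact le_rfl
  | succ s _ ih => exact ih.trans ((v_lt_u s).trans (u_lt_v _)).le

lemma cover (m : ℤ) (hm : 4 ≤ m) : ∃ r : ℕ, u r ≤ m ∧ m < u (r + 1) := by
  have hex : ∃ r : ℕ, m < u (r + 1) := by
    refine ⟨m.toNat, ?_⟩
    have h1 := aa_ge m.toNat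
    rw [u_succ]
    omega
  classical
  refine ⟨Nat.find hex, ?_, Nat.find_spec hex⟩
  rcases Nat.eq_zero_or_pos (Nat.find hex) with h | h
  · rw [h, u_eq]
    simpa [aa] using hm
  · obtain ⟨l, hl⟩ := Nat.exists_eq_succ_of_ne_zero h.ne'
    have h2 : l < Nat.find hex := by omega
    have h3 := Nat.find_min hex h2
    rw [hl]
    exact not_lt.1 h3

section signs

variable {A B : ℤ → ℤ} (hp : Pre A B)
include hp

lemma sign_pos {r : ℕ} {m : ℤ} (h1 : u r < m) (h2 : m < v r) : A m < B m := by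
  obtain ⟨P1, -⟩ := phases hp r
  rw [u_eq] at h1
  rw [v_eq] at h2
  have := P1.pos m h1 h2
  omega

lemma sign_neg {r : ℕ} {m : ℤ} (h1 : v r < m) (h2 : m < u (r + 1)) : B m < A m := by
  obtain ⟨-, P2⟩ := phases hp r
  rw [v_eq] at h1
  rw [u_succ] at h2
  have := P2.neg m h1 (by omega)
  omega

lemma sign_u (r : ℕ) : A (u r) = B (u r) := by
  obtain ⟨P1, -⟩ := phases hp r
  rw [u_eq, P1.uA, P1.uB]

lemma sign_v (r : ℕ) : A (v r) = B (v r) := by
  obtain ⟨P1, -⟩ := phases hp r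
  rw [v_eq, P1.vA, P1.vB]

lemma pos_block {m : ℤ} (hm : 4 ≤ m) (h : A m < B m) : ∃ r : ℕ, u r < m ∧ m < v r := by
  obtain ⟨r, h1, h2⟩ := cover m hm
  refine ⟨r, ?_, ?_⟩
  · rcases h1.lt_or_eq with h3 | h3
    · exact h3
    · have := sign_u hp r
      rw [h3] at this
      omega
  · rcases lt_trichotomy m (v r) with h3 | h3 | h3
    · exact h3
    · have := sign_v hp r
      rw [← h3] at this
      omega
    · have := sign_neg hp h3 h2
      omega

lemma neg_block {m : ℤ} (hm : 4 ≤ m) (h : B m < A m) : ∃ r : ℕ, v r < m ∧ m < u (r + 1) := by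
  obtain ⟨r, h1, h2⟩ := cover m hm
  refine ⟨r, ?_, h2⟩
  rcases lt_trichotomy m (v r) with h3 | h3 | h3
  · rcases h1.lt_or_eq with h4 | h4
    · have := sign_pos hp h4 h3
      omega
    · have := sign_u hp r
      rw [h4] at this
      omega
  · have := sign_v hp r
    rw [← h3] at this
    omega
  · exact h3

end signs

/-- A finite-valued `k`-regular sequence has a finite `k`-kernel. -/
lemma kernel_finite' (k : ℕ) {t : ℕ → ℤ} (ht : IsRegular k t) (hfin : (Set.range t).Finite) :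
    (kernel k t).Finite := by
  classical
  obtain ⟨S, hS⟩ := ht
  let cast : (ℕ → ℤ) → (ℕ → ℚ) := fun f n => (f n : ℚ)
  let V : Submodule ℚ (ℕ → ℚ) := Submodule.span ℚ (cast '' (S : Set (ℕ → ℤ)))
  have hVfin : FiniteDimensional ℚ V := FiniteDimensional.span_of_finite ℚ
    (S.finite_toSet.image cast)
  have hmem : ∀ f ∈ Submodule.span ℤ (kernel k t), cast f ∈ V := by
    intro f hf
    rw [← hS] at hf
    induction hf using Submodule.span_induction with
    | mem x hx => exact Submodule.subset_span ⟨x, hx, rfl⟩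
    | zero =>
      have : cast 0 = 0 := by funext n; simp [cast]
      rw [this]; exact V.zero_mem
    | add x y _ _ hx hy =>
      have : cast (x + y) = cast x + cast y := by funext n; simp [cast]
      rw [this]; exact V.add_mem hx hy
    | smul a x _ hx =>
      have : cast (a • x) = (a : ℚ) • cast x := by funext n; simp [cast]
      rw [this]; exact V.smul_mem _ hx
  obtain ⟨N, hN⟩ := exists_sep V
  have hT : Finite (Set.range t) := hfin
  have hrange : ∀ g ∈ kernel k t, ∀ n, g n ∈ Set.range t := by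
    rintro g ⟨e, j, _, rfl⟩ n
    exact ⟨_, rfl⟩
  let F : kernel k t → (Fin N → Set.range t) := fun g i => ⟨g.1 i, hrange g.1 g.2 i⟩
  have hF : Function.Injective F := by
    intro g g' hgg
    have h1 : ∀ i < N, g.1 i = g'.1 i := by
      intro i hi
      have := congrFun hgg ⟨i, hi⟩
      exact congrArg Subtype.val this
    have h2 : cast g.1 - cast g'.1 ∈ V := V.sub_mem (hmem _ (Submodule.subset_span g.2))
      (hmem _ (Submodule.subset_span g'.2))
    have h3 := hN _ h2 (fun i hi => by simp [cast, h1 i hi])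
    apply Subtype.ext
    funext n
    have h4 := congrFun h3 n
    simp only [cast, Pi.sub_apply, Pi.zero_apply] at h4
    have h5 : (g.1 n : ℚ) = (g'.1 n : ℚ) := by linarith
    exact_mod_cast h5
  have : Finite (kernel k t) := Finite.of_injective F hF
  exact this

/-- The arithmetic contradiction. -/
lemma arith (P P' C : ℤ) (r S : ℕ) (hP : 1 ≤ P) (hPP : P < P')
    (hr1 : P' ≤ r) (hr2 : C < r)
    (h1 : 32 * (P' * 4 ^ r - P * 4 ^ S) - 3 * (P' * r - P * S) ≤ C)
    (h2 : -C ≤ 32 * (P' * 4 ^ r - P * 4 ^ S) - 3 * (P' * r - P * S)) : False := by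
  have hrr : (r : ℤ) * r < 4 ^ r := by
    have h3 : (r : ℤ) < 2 ^ r := by exact_mod_cast Nat.lt_two_pow_self
    have h4 : (4 : ℤ) ^ r = 2 ^ r * 2 ^ r := by rw [← mul_pow]; norm_num
    have h5 : (0 : ℤ) ≤ r := by positivity
    rw [h4]
    nlinarith
  have h4r : (0 : ℤ) < 4 ^ r := by positivity
  have hr0 : (2 : ℤ) ≤ r := by omega
  have hPr : P' * r ≤ r * r := by nlinarith
  -- `S > r`
  have hSr : r < S := by
    by_contra hle
    push Not at hle
    have h3 : (4 : ℤ) ^ S ≤ 4 ^ r := pow_le_pow_right₀ (by norm_num) hle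
    have h5 : P * 4 ^ S ≤ (P' - 1) * 4 ^ r :=
      mul_le_mul (by omega) h3 (by positivity) (by omega)
    have h6 : 0 ≤ P * (S : ℤ) := by positivity
    nlinarith
  obtain ⟨d, hd⟩ := Nat.exists_eq_add_of_lt hSr
  have hS : (4 : ℤ) ^ S = 4 ^ r * 4 ^ (d + 1) := by rw [hd, ← pow_add]; congr 1
  have hSz : (S : ℤ) = r + (d + 1) := by rw [hd]; push_cast; ring
  rw [hS, hSz] at h1 h2
  have hdd : ∀ d : ℕ, 4 * ((d : ℤ) + 1) ≤ 4 ^ (d + 1) ∧ 3 * ((d : ℤ) + 1) + 1 ≤ 4 ^ (d + 1) := by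
    intro d
    induction d with
    | zero => norm_num
    | succ d ih => rw [pow_succ]; push_cast; constructor <;> linarith [ih.1, ih.2]
  obtain ⟨hd1, hd2⟩ := hdd d
  set D : ℤ := (d : ℤ) + 1 with hD
  set W : ℤ := 4 ^ (d + 1) with hW
  have hD1 : 1 ≤ D := by omega
  rcases lt_trichotomy P' (P * W) with h | h | h
  · -- `z = P W - P' ≥ 1`
    have h3 : 32 * (4 ^ r * (P * W - P')) ≤ C + 3 * (P * D) := by nlinarith
    have h5 : 3 * (P * D) ≤ P * W := by nlinarith
    have h6 : 1 ≤ P * W - P' := by omega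
    have h7 : C + P' < 31 * 4 ^ r := by nlinarith
    nlinarith
  · have h3 : 3 * (P' * r - P * (r + D)) ≤ C := by
      have : P' * 4 ^ r - P * (4 ^ r * W) = 0 := by rw [h]; ring
      rw [this] at h2
      linarith
    have h5 : P' * r - P * (r + D) = P * ((W - 1) * r - D) := by rw [h]; ring
    have h6 : (r : ℤ) ≤ (W - 1) * r - D := by nlinarith
    have h7 : (r : ℤ) ≤ P * ((W - 1) * r - D) := by nlinarith
    rw [h5] at h3
    linarith
  · have h3 : 1 ≤ P' - P * W := by omega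
    have h5 : 32 * (4 ^ r * (P' - P * W)) ≤ C + 3 * (P' * r) := by
      have : 0 ≤ P * (r + D) := by positivity
      nlinarith
    nlinarith

/-- Two kernel sequences cannot coincide. -/
lemma no_coincidence {A B : ℤ → ℤ} (hp : Pre A B) {t : ℕ → ℤ} (N : ℕ)
    (ht : ∀ (m : ℤ) (n : ℕ), N ≤ n → 1 ≤ m → (n : ℤ) = 2 * m - 1 →
      t n = Int.sign (B m - A m))
    (P P' : ℕ) (hP : 1 ≤ P) (hPP : P < P') (h : ∀ x, t (P * x + 1) = t (P' * x + 1)) : False := by
  set C : ℤ := 9 * P * P' + 5 * P' with hC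
  obtain ⟨r, hr⟩ : ∃ r : ℕ, r = N + 4 * P' + 3 * (9 * P * P' + 5 * P') + 10 := ⟨_, rfl⟩
  have hrz : (r : ℤ) = N + 4 * P' + 3 * C + 10 := by rw [hr, hC]; push_cast; ring
  have hPPz : (P : ℤ) < P' := by exact_mod_cast hPP
  have hPz : (1 : ℤ) ≤ P := by exact_mod_cast hP
  have hC0 : 0 ≤ C := by positivity
  have haa := aa_ge r
  have hv := v_eq r
  have hu := u_eq r
  have hu' := u_succ r
  -- the position
  obtain ⟨y, hy1, hy2⟩ : ∃ y : ℕ, (P : ℤ) * y ≤ v r - 2 ∧ v r - 2 < P * (y + 1) := by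
    refine ⟨((v r - 2) / P).toNat, ?_, ?_⟩
    · have h0 : 0 ≤ (v r - 2) / P := Int.ediv_nonneg (by omega) (by omega)
      rw [Int.toNat_of_nonneg h0]
      exact Int.mul_ediv_self_le (by omega)
    · have h0 : 0 ≤ (v r - 2) / P := Int.ediv_nonneg (by omega) (by omega)
      rw [Int.toNat_of_nonneg h0]
      have := Int.lt_mul_ediv_self_add (x := v r - 2) (k := P) (by omega)
      linarith
  have hy3 : (P : ℤ) * (y + 1) = P * y + P := by ring
  rw [hy3] at hy2
  have hyP' : (P : ℤ) * y ≤ P' * y := by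
    apply mul_le_mul_of_nonneg_right hPPz.le (by positivity)
  have hk0 := h (2 * y)
  have hk1 := h (2 * (y + 2))
  have e0 : ((P * (2 * y) + 1 : ℕ) : ℤ) = 2 * ((P : ℤ) * y + 1) - 1 := by push_cast; ring
  have e1 : ((P * (2 * (y + 2)) + 1 : ℕ) : ℤ) = 2 * ((P : ℤ) * y + 2 * P + 1) - 1 := by
    push_cast; ring
  have e0' : ((P' * (2 * y) + 1 : ℕ) : ℤ) = 2 * ((P' : ℤ) * y + 1) - 1 := by push_cast; ring
  have e1' : ((P' * (2 * (y + 2)) + 1 : ℕ) : ℤ) = 2 * ((P' : ℤ) * y + 2 * P' + 1) - 1 := by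
    push_cast; ring
  have s0 := ht _ _ (by omega) (by omega) e0
  have s1 := ht _ _ (by omega) (by omega) e1
  have s0' := ht _ _ (by omega) (by omega) e0'
  have s1' := ht _ _ (by omega) (by omega) e1'
  rw [s0, s0'] at hk0
  rw [s1, s1'] at hk1
  have g0 := sign_pos hp (r := r) (m := (P : ℤ) * y + 1) (by omega) (by omega)
  have g1 := sign_neg hp (r := r) (m := (P : ℤ) * y + 2 * P + 1) (by omega) (by omega)
  have k0 : A ((P' : ℤ) * y + 1) < B ((P' : ℤ) * y + 1) := by
    have : Int.sign (B ((P : ℤ) * y + 1) - A ((P : ℤ) * y + 1)) = 1 :=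
      Int.sign_eq_one_iff_pos.2 (by omega)
    rw [this] at hk0
    have := Int.sign_eq_one_iff_pos.1 hk0.symm
    omega
  have k1 : B ((P' : ℤ) * y + 2 * P' + 1) < A ((P' : ℤ) * y + 2 * P' + 1) := by
    have : Int.sign (B ((P : ℤ) * y + 2 * P + 1) - A ((P : ℤ) * y + 2 * P + 1)) = -1 :=
      Int.sign_eq_neg_one_iff_neg.2 (by omega)
    rw [this] at hk1
    have := Int.sign_eq_neg_one_iff_neg.1 hk1.symm
    omega
  obtain ⟨S, a1, a2⟩ := pos_block hp (by omega) k0
  obtain ⟨S1, b1, b2⟩ := neg_block hp (by omega) k1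
  have hSS : S ≤ S1 := by
    by_contra hlt
    push Not at hlt
    have := u_mono (r := S1 + 1) (s := S) hlt
    omega
  have hvS := v_mono hSS
  have c1 : (P' : ℤ) * y + 1 < v S := a2
  have c2 : v S < (P' : ℤ) * y + 2 * P' + 1 := by omega
  -- the two-sided comparison
  have f1 : (P' : ℤ) * (v r) - P * v S ≤ C := by
    have q1 : (P' : ℤ) * (v r - 2) ≤ P' * (P * y + P) :=
      mul_le_mul_of_nonneg_left hy2.le (by positivity)
    have q2 : (P : ℤ) * (P' * y + 1) ≤ P * v S :=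
      mul_le_mul_of_nonneg_left c1.le (by positivity)
    nlinarith
  have f2 : -C ≤ (P' : ℤ) * (v r) - P * v S := by
    have q1 : (P' : ℤ) * (P * y) ≤ P' * (v r - 2) :=
      mul_le_mul_of_nonneg_left hy1 (by positivity)
    have q2 : (P : ℤ) * v S ≤ P * (P' * y + 2 * P' + 1) :=
      mul_le_mul_of_nonneg_left c2.le (by positivity)
    nlinarith
  have hvr : 3 * v r = 32 * 4 ^ r - 3 * r - 2 := by
    have := aa3 r
    rw [hv]
    linarith
  have hvS' : 3 * v S = 32 * 4 ^ S - 3 * S - 2 := by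
    have := aa3 S
    rw [v_eq]
    linarith
  have key : 3 * ((P' : ℤ) * (v r) - P * v S) = 32 * ((P' : ℤ) * 4 ^ r - P * 4 ^ S) -
      3 * ((P' : ℤ) * r - P * S) - 2 * (P' - P) := by
    have e2 : 3 * ((P' : ℤ) * (v r) - P * v S) = P' * (3 * v r) - P * (3 * v S) := by ring
    rw [e2, hvr, hvS']
    ring
  exact arith P P' (3 * C + 2 * P') r S hPz hPPz (by omega) (by omega) (by linarith) (by linarith)

/-- The sign sequence of a solution of the recursion. -/
def signSeq (Q : ℕ → ℤ) (n : ℕ) : ℤ := Int.sign (Q (n + 1) - Q n)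

/-- The connection with the two subsequences. -/
lemma diff_eq {Q : ℕ → ℤ} (hQ : IsQ Q) : ∃ A B : ℤ → ℤ, Pre A B ∧
    ∀ (m : ℤ) (n : ℕ), 1 ≤ m → (n : ℤ) = 2 * m - 1 → Q (n + 1) - Q n = 2 * (B m - A m) := by
  have hG := hQ.preG
  refine ⟨_, _, hG.pre, fun m n hm hn => ?_⟩
  have e1 : (2 * m).toNat = n + 1 := by omega
  have e2 : (2 * m - 1).toNat = n := by omega
  have h5 : Q (2 * m - 1).toNat % 2 = 1 := hG.odd (2 * m - 1) (by omega)
  have h6 : Q (2 * m).toNat % 2 = 1 := hG.odd (2 * m) (by omega)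
  change Q (n + 1) - Q n = 2 * ((Q (2 * m).toNat + 1) / 2 - (Q (2 * m - 1).toNat + 1) / 2)
  rw [e1] at h6 ⊢
  rw [e2] at h5 ⊢
  omega

lemma sign_two (x : ℤ) : Int.sign (2 * x) = Int.sign x := by
  rcases lt_trichotomy x 0 with h | h | h
  · rw [Int.sign_eq_neg_one_iff_neg.2 h, Int.sign_eq_neg_one_iff_neg.2 (by omega)]
  · subst h; rfl
  · rw [Int.sign_eq_one_iff_pos.2 h, Int.sign_eq_one_iff_pos.2 (by omega)]

/-- The sign sequence is not eventually `k`-regular. -/
lemma not_regular {Q : ℕ → ℤ} (hQ : IsQ Q) (k : ℕ) (hk : 2 ≤ k) :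
    ¬ EventuallyRegular k (signSeq Q) := by
  rintro ⟨t, ht, N, hN⟩
  obtain ⟨A, B, hp, hd⟩ := diff_eq hQ
  have hfin : (Set.range t).Finite := by
    have h1 : Set.range t ⊆ (t '' (Set.Iio N)) ∪ ({-1, 0, 1} : Set ℤ) := by
      rintro x ⟨n, rfl⟩
      rcases Nat.lt_or_ge n N with h | h
      · left; exact ⟨n, h, rfl⟩
      · right
        rw [← hN n h]
        unfold signSeq
        rcases Int.sign_trichotomy (Q (n + 1) - Q n) with h | h | h <;> rw [h] <;> simp
    exact Set.Finite.subset (((Set.finite_Iio N).image t).union (by simp)) h1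
  have hK : Finite (kernel k t) := kernel_finite' k ht hfin
  let F : ℕ → kernel k t := fun e => ⟨fun n => t (k ^ (e + 1) * n + 1), e + 1, 1,
    Nat.one_lt_pow (by omega) (by omega), rfl⟩
  obtain ⟨e₁, e₂, hne, heq⟩ := Finite.exists_ne_map_eq_of_infinite F
  obtain ⟨e, e', hlt, hee⟩ : ∃ e e', e < e' ∧ F e = F e' := by
    rcases Nat.lt_or_gt_of_ne hne with h | h
    · exact ⟨e₁, e₂, h, heq⟩
    · exact ⟨e₂, e₁, h, heq.symm⟩
  refine no_coincidence hp N (fun m n hn hm hnm => ?_) (k ^ (e + 1)) (k ^ (e' + 1))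
    (Nat.one_le_pow _ _ (by omega)) (Nat.pow_lt_pow_right (by omega) (by omega))
    (fun x => congrFun (congrArg Subtype.val hee) x)
  rw [← hN n hn]
  unfold signSeq
  rw [hd m n hm hnm, sign_two]

/-- **The sign pattern of the perturbed Hofstadter sequence is not regular in any base.** The
sequence exists; for no `k ≥ 2` is the sequence of signs of `Q (n+1) - Q n` eventually `k`-regular;
and at the odd indices the signs are, for all `r` and `m`: zero at `2m - 1` for `m = u_r, v_r`,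
positive for `u_r < m < v_r`, negative for `v_r < m < u_(r+1)`. -/
theorem result : (∃ Q : ℕ → ℤ, IsQ Q) ∧ ∀ Q : ℕ → ℤ, IsQ Q →
    (∀ k : ℕ, 2 ≤ k → ¬ EventuallyRegular k (signSeq Q)) ∧
    ∀ (r : ℕ) (m n : ℕ), n + 1 = 2 * m →
      (((m : ℤ) = u r ∨ (m : ℤ) = v r) → signSeq Q n = 0) ∧
      (u r < m → (m : ℤ) < v r → signSeq Q n = 1) ∧
      (v r < m → (m : ℤ) < u (r + 1) → signSeq Q n = -1) := by
  refine ⟨exists_isQ, fun Q hQ => ⟨fun k hk => not_regular hQ k hk, fun r m n hn => ?_⟩⟩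
  obtain ⟨A, B, hp, hd⟩ := diff_eq hQ
  have hm : (1 : ℤ) ≤ m := by omega
  have hs : signSeq Q n = Int.sign (B m - A m) := by
    unfold signSeq
    rw [hd m n hm (by omega), sign_two]
  rw [hs]
  refine ⟨?_, fun h1 h2 => ?_, fun h1 h2 => ?_⟩
  · rintro (h | h)
    · rw [h, sign_u hp r, sub_self, Int.sign_zero]
    · rw [h, sign_v hp r, sub_self, Int.sign_zero]
  · have := sign_pos hp h1 h2
    exact Int.sign_eq_one_iff_pos.2 (by omega)
  · have := sign_neg hp h1 h2
    exact Int.sign_eq_neg_one_iff_neg.2 (by omega)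

end Pool.Agent.Results.MP_f18a8d_nt.AnyBase
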